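import Mathlib
import Pool.Agent.H16.FI.Defs
import Pool.Agent.H16.FI.Red
import Pool.Agent.H16.FI.Leaf
import Pool.Agent.H16.FI.G7

/-!
MP_bf8eef_co (Chartrand, Holbert, Oellermann, Swart): for every connected graph `F` with at least
three vertices there is an `F`-irregular graph.
-/

namespace Pool.Agent.Results.MP_bf8eef_co.Irregular

/-- The `F`-degree of the vertex `v` of `G`: the number of subgraphs `H` of `G` (not necessarily
induced; distinct subgraphs are counted separately) with `H ≅ F` and `v ∈ V(H)`. -/
noncomputable def FDegree {α β : Type} (F : SimpleGraph α) (G : SimpleGraph β) (v : β) : ℕ :=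
  Set.ncard {H : G.Subgraph | v ∈ H.verts ∧ Nonempty (F ≃g H.coe)}

/-- `G` is `F`-irregular: `G` has at least two vertices, and distinct vertices have distinct
`F`-degrees. -/
def FIrregular {α β : Type} (F : SimpleGraph α) (G : SimpleGraph β) : Prop :=
  Nontrivial β ∧ ∀ u v : β, u ≠ v → FDegree F G u ≠ FDegree F G v

/-- For every finite connected graph `F` with at least three vertices there is a finite
`F`-irregular graph. -/
theorem result : ∀ (α : Type) [Fintype α] (F : SimpleGraph α), F.Connected →
    3 ≤ Fintype.card α →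
    ∃ (β : Type) (_ : Fintype β) (G : SimpleGraph β), FIrregular F G := by
  intro α _ F hF hk
  classical
  have key : ∃ (β : Type) (_ : Fintype β) (G : SimpleGraph β), Nontrivial β ∧
      ∀ u v : β, u ≠ v → H16.FI.I F G u ≠ H16.FI.I F G v := by
    have : Nonempty α := Fintype.card_pos_iff.1 (by omega)
    obtain ⟨z0, -, hz0⟩ := Finset.exists_min_image (Finset.univ : Finset α)
      (fun z => H16.FI.dg F z) Finset.univ_nonempty
    have hmin : ∀ z, H16.FI.dg F z0 ≤ H16.FI.dg F z := fun z => hz0 z (Finset.mem_univ _)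
    by_cases h2 : 2 ≤ H16.FI.dg F z0
    · exact H16.FI.case_two hmin h2
    · have : Nontrivial α := Fintype.one_lt_card_iff_nontrivial.1 (by omega)
      obtain ⟨f0, hf0⟩ := hF.preconnected.exists_adj_of_nontrivial z0
      have h1 : Fintype.card {a // F.Adj z0 a} ≤ 1 := by
        have : Fintype.card {a // F.Adj z0 a} = H16.FI.dg F z0 := by
          rw [H16.FI.dg]
        omega
      have h3 := Fintype.card_le_one_iff.1 h1
      refine H16.FI.case_leaf F hF hk z0 f0 fun b => ⟨fun hb => ?_, ?_⟩
      · exact congrArg Subtype.val (h3 ⟨b, hb⟩ ⟨f0, hf0⟩)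
      · rintro rfl
        exact hf0
  obtain ⟨β, hβ, G, hnt, hG⟩ := key
  exact ⟨β, hβ, G, hnt, fun u v huv => H16.FI.fdeg_ne F G (hG u v huv)⟩

end Pool.Agent.Results.MP_bf8eef_co.Irregular
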